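import Mathlib

set_option autoImplicit false

namespace Pool.Agent.Lib.MP_5cdc53_co

/-- `(n, k, L)`-systems: families of `k`-element subsets of an `n`-element set whose distinct
members meet in a number of points that lies in `L`. -/
def IsSystem (n k : ℕ) (L : Finset ℕ) (F : Finset (Finset (Fin n))) : Prop :=
  (∀ A ∈ F, A.card = k) ∧ ∀ A ∈ F, ∀ B ∈ F, A ≠ B → (A ∩ B).card ∈ L

/-- The maximum size `m(n, k, L)` of an `(n, k, L)`-system. -/
noncomputable def m (n k : ℕ) (L : Finset ℕ) : ℕ :=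
  sSup {N | ∃ F : Finset (Finset (Fin n)), IsSystem n k L F ∧ F.card = N}

/-- The property asked about in Q1: `m(n, k, L) > c n ^ |L|` for some `c > 0` and all sufficiently
large `n`. -/
def FullGrowth (k : ℕ) (L : Finset ℕ) : Prop :=
  ∃ c : ℝ, 0 < c ∧ ∃ N : ℕ, ∀ n : ℕ, N ≤ n → c * (n : ℝ) ^ L.card < (m n k L : ℝ)

end Pool.Agent.Lib.MP_5cdc53_co
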