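import Pool.Agent.Lib.MP_5cdc53_co.Defs

set_option autoImplicit false

namespace Pool.Agent.Lib.MP_5cdc53_co

open Finset

theorem le_m {n k : ℕ} {L : Finset ℕ} {F : Finset (Finset (Fin n))} (h : IsSystem n k L F) :
    F.card ≤ m n k L := by
  apply le_csSup
  · refine ⟨Fintype.card (Finset (Fin n)), ?_⟩
    rintro _ ⟨F, _, rfl⟩
    exact Finset.card_le_univ F
  · exact ⟨F, h, rfl⟩

/-- common zeros of a list of functionals -/
def Zs {K : Type} [Field K] [DecidableEq K] {k s : ℕ} (v : Fin k → Fin s → K) {r : ℕ}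
    (D : Fin r → Fin s → K) : Finset (Fin k) :=
  univ.filter fun i => ∀ ρ, D ρ ⬝ᵥ v i = 0

theorem m_ge {K : Type} [Field K] [DecidableEq K] [Fintype K] {k s : ℕ} (v : Fin k → Fin s → K)
    (L : Finset ℕ) (hk : k ∉ L)
    (hL : ∀ (r : ℕ) (D : Fin r → Fin s → K), D ≠ 0 → (Zs v D).card ∈ L) (r n : ℕ)
    (hn : k * Fintype.card K ^ r ≤ n) : Fintype.card K ^ (r * s) ≤ m n k L := by
  classical
  have hcard : Fintype.card (Fin k × (Fin r → K)) ≤ Fintype.card (Fin n) := by
    simpa [Fintype.card_prod, Fintype.card_pi] using hn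
  obtain ⟨e⟩ := Function.Embedding.nonempty_of_card_le hcard
  let B : (Fin r → Fin s → K) → Finset (Fin n) := fun T =>
    univ.image fun i : Fin k => e (i, fun ρ => T ρ ⬝ᵥ v i)
  have hBcard : ∀ T, (B T).card = k := by
    intro T
    have hinj : Function.Injective fun i : Fin k => e (i, fun ρ => T ρ ⬝ᵥ v i) := by
      intro i j hij
      exact congrArg Prod.fst (e.injective hij)
    simp only [B]
    rw [Finset.card_image_of_injective _ hinj]
    simp
  have hBint : ∀ T T', (B T ∩ B T').card = (Zs v (T - T')).card := by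
    intro T T'
    have : B T ∩ B T' = (Zs v (T - T')).image fun i : Fin k => e (i, fun ρ => T ρ ⬝ᵥ v i) := by
      ext x
      simp only [B, Zs, mem_inter, mem_image, mem_univ, true_and, mem_filter, Pi.sub_apply,
        sub_dotProduct, sub_eq_zero]
      constructor
      · rintro ⟨⟨i, rfl⟩, ⟨j, hj⟩⟩
        have h1 := e.injective hj
        have h2 : j = i := congrArg Prod.fst h1
        subst h2
        refine ⟨j, fun ρ => ?_, rfl⟩
        exact (congrFun (congrArg Prod.snd h1) ρ).symm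
      · rintro ⟨i, hi, rfl⟩
        refine ⟨⟨i, rfl⟩, ⟨i, ?_⟩⟩
        congr 2
        funext ρ
        exact (hi ρ).symm
    rw [this, Finset.card_image_of_injective]
    intro i j hij
    exact congrArg Prod.fst (e.injective hij)
  have hinjB : Function.Injective B := by
    intro T T' h
    by_contra hne
    have h1 := hL r (T - T') (sub_ne_zero.2 hne)
    rw [← hBint, h, Finset.inter_self, hBcard] at h1
    exact hk h1
  have hsys : IsSystem n k L (univ.image B) := by
    constructor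
    · intro A hA
      obtain ⟨T, _, rfl⟩ := mem_image.1 hA
      exact hBcard T
    · intro A hA A' hA' hne
      obtain ⟨T, _, rfl⟩ := mem_image.1 hA
      obtain ⟨T', _, rfl⟩ := mem_image.1 hA'
      rw [hBint]
      apply hL
      intro h0
      exact hne (by rw [sub_eq_zero.1 h0])
  have := le_m hsys
  rw [Finset.card_image_of_injective _ hinjB, Finset.card_univ] at this
  refine le_trans (le_of_eq ?_) this
  simp [Fintype.card_pi, ← pow_mul, mul_comm]

theorem fullGrowth_of_vectors {K : Type} [Field K] [DecidableEq K] [Fintype K] {k s : ℕ}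
    (hk0 : 0 < k) (v : Fin k → Fin s → K) (L : Finset ℕ) (hk : k ∉ L) (hs : L.card = s)
    (hL : ∀ (r : ℕ) (D : Fin r → Fin s → K), D ≠ 0 → (Zs v D).card ∈ L) : FullGrowth k L := by
  classical
  set q := Fintype.card K with hq
  have hq1 : 1 < q := Fintype.one_lt_card
  have hkq : (0 : ℝ) < (k : ℝ) * q := by positivity
  refine ⟨(1 / ((k : ℝ) * q)) ^ s / 2, by positivity, k, fun n hn => ?_⟩
  have hn0 : 0 < n := lt_of_lt_of_le hk0 hn
  -- the exponent `r`
  obtain ⟨r, hr1, hr2⟩ : ∃ r, k * q ^ r ≤ n ∧ n < k * q ^ (r + 1) := by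
    have hex : ∃ r, n < k * q ^ r := by
      refine ⟨n, ?_⟩
      calc n < q ^ n := Nat.lt_pow_self hq1
        _ ≤ k * q ^ n := Nat.le_mul_of_pos_left _ hk0
    have hne : Nat.find hex ≠ 0 := by
      intro h0
      have := Nat.find_spec hex
      rw [h0] at this
      simp at this
      omega
    obtain ⟨r, hr⟩ := Nat.exists_eq_succ_of_ne_zero hne
    refine ⟨r, ?_, ?_⟩
    · exact not_lt.1 (Nat.find_min hex (by omega))
    · have := Nat.find_spec hex
      rwa [hr] at this
  have h1 := m_ge v L hk hL r n hr1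
  have h2 : (n : ℝ) < (k : ℝ) * q * (q : ℝ) ^ r := by
    have : (n : ℝ) < ((k * q ^ (r + 1) : ℕ) : ℝ) := by exact_mod_cast hr2
    push_cast at this
    calc (n : ℝ) < (k : ℝ) * (q : ℝ) ^ (r + 1) := this
      _ = (k : ℝ) * q * (q : ℝ) ^ r := by rw [pow_succ]; ring
  have h3 : (1 / ((k : ℝ) * q)) * n ≤ (q : ℝ) ^ r := by
    rw [one_div, inv_mul_le_iff₀ hkq]
    exact h2.le
  have h4 : ((1 / ((k : ℝ) * q)) * n) ^ s ≤ ((q : ℝ) ^ r) ^ s :=
    pow_le_pow_left₀ (by positivity) h3 s
  have h5 : (((q ^ (r * s) : ℕ)) : ℝ) ≤ (m n k L : ℝ) := by exact_mod_cast h1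
  push_cast at h5
  rw [hs]
  have h6 : (0 : ℝ) < (1 / ((k : ℝ) * q)) ^ s * (n : ℝ) ^ s := by positivity
  calc (1 / ((k : ℝ) * q)) ^ s / 2 * (n : ℝ) ^ s
      < (1 / ((k : ℝ) * q)) ^ s * (n : ℝ) ^ s := by linarith
    _ = ((1 / ((k : ℝ) * q)) * n) ^ s := by rw [mul_pow]
    _ ≤ ((q : ℝ) ^ r) ^ s := h4
    _ = (q : ℝ) ^ (r * s) := by rw [← pow_mul]
    _ ≤ (m n k L : ℝ) := h5

end Pool.Agent.Lib.MP_5cdc53_co
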