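import Pool.Agent.Lib.MP_5cdc53_co.Ternary

set_option autoImplicit false

namespace Pool.Agent.Lib.MP_5cdc53_co

open Finset

/-- columns of a generator matrix of a ternary `[11, 5, 6]` code -/
def g11 : Fin 11 → Fin 5 → ZMod 3 :=
  ![![1,0,0,0,0], ![0,1,0,0,0], ![0,0,1,0,0], ![0,0,0,1,0], ![0,0,0,0,1],
    ![1,1,1,1,1], ![0,1,2,2,1], ![1,0,1,2,2], ![2,1,0,1,2], ![2,2,1,0,1], ![1,2,2,1,0]]

/-- columns of a generator matrix of the extended ternary Golay code -/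
def g12 : Fin 12 → Fin 6 → ZMod 3 :=
  ![![1,0,0,0,0,0], ![0,1,0,0,0,0], ![0,0,1,0,0,0], ![0,0,0,1,0,0], ![0,0,0,0,1,0], ![0,0,0,0,0,1],
    ![0,1,1,1,1,1], ![1,0,1,2,2,1], ![1,1,0,1,2,2], ![1,2,1,0,1,2], ![1,2,2,1,0,1],
    ![1,1,2,2,1,0]]

theorem g11_check : ∀ a0 a1 a2 a3 a4 : ZMod 3,
    (a0 = 0 ∧ a1 = 0 ∧ a2 = 0 ∧ a3 = 0 ∧ a4 = 0) ∨
    (univ.filter fun i : Fin 11 => a0 * g11 i 0 + a1 * g11 i 1 + a2 * g11 i 2 + a3 * g11 i 3 +
      a4 * g11 i 4 = 0).card = 5 ∨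
    (univ.filter fun i : Fin 11 => a0 * g11 i 0 + a1 * g11 i 1 + a2 * g11 i 2 + a3 * g11 i 3 +
      a4 * g11 i 4 = 0).card < 4 := by
  decide +kernel

theorem g12_check : ∀ a0 a1 a2 a3 a4 a5 : ZMod 3,
    (a0 = 0 ∧ a1 = 0 ∧ a2 = 0 ∧ a3 = 0 ∧ a4 = 0 ∧ a5 = 0) ∨
    (univ.filter fun i : Fin 12 => a0 * g12 i 0 + a1 * g12 i 1 + a2 * g12 i 2 + a3 * g12 i 3 +
      a4 * g12 i 4 + a5 * g12 i 5 = 0).card = 6 ∨
    (univ.filter fun i : Fin 12 => a0 * g12 i 0 + a1 * g12 i 1 + a2 * g12 i 2 + a3 * g12 i 3 +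
      a4 * g12 i 4 + a5 * g12 i 5 = 0).card < 5 := by
  decide +kernel

theorem g11_zeros (a : Fin 5 → ZMod 3) (ha : a ≠ 0) :
    (Z1 g11 a).card = 5 ∨ (Z1 g11 a).card < 4 := by
  have h := g11_check (a 0) (a 1) (a 2) (a 3) (a 4)
  have e : (Z1 g11 a) = (univ.filter fun i : Fin 11 => a 0 * g11 i 0 + a 1 * g11 i 1 +
      a 2 * g11 i 2 + a 3 * g11 i 3 + a 4 * g11 i 4 = 0) := by
    unfold Z1
    congr 1
    funext i
    simp [dotProduct, Fin.sum_univ_five]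
  rw [e]
  rcases h with ⟨h0, h1, h2, h3, h4⟩ | h
  · exfalso
    apply ha
    funext j
    fin_cases j <;> simp_all
  · exact h

theorem g12_zeros (a : Fin 6 → ZMod 3) (ha : a ≠ 0) :
    (Z1 g12 a).card = 6 ∨ (Z1 g12 a).card < 5 := by
  have h := g12_check (a 0) (a 1) (a 2) (a 3) (a 4) (a 5)
  have e : (Z1 g12 a) = (univ.filter fun i : Fin 12 => a 0 * g12 i 0 + a 1 * g12 i 1 +
      a 2 * g12 i 2 + a 3 * g12 i 3 + a 4 * g12 i 4 + a 5 * g12 i 5 = 0) := by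
    unfold Z1
    congr 1
    funext i
    simp [dotProduct, Fin.sum_univ_six]
  rw [e]
  rcases h with ⟨h0, h1, h2, h3, h4, h5⟩ | h
  · exfalso
    apply ha
    funext j
    fin_cases j <;> simp_all
  · exact h

theorem full11 : FullGrowth 11 {0, 1, 2, 3, 5} := by
  refine fullGrowth_of_vectors (by norm_num) g11 _ (by decide) (by decide) ?_
  intro r D hD
  rcases ternary_flats (M := 5) (t := 4) g11 (by norm_num) (by norm_num) g11_zeros r D hD with h | h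
  · rw [h]; decide
  · generalize (Zs g11 D).card = x at h ⊢
    interval_cases x <;> decide

theorem full12 : FullGrowth 12 {0, 1, 2, 3, 4, 6} := by
  refine fullGrowth_of_vectors (by norm_num) g12 _ (by decide) (by decide) ?_
  intro r D hD
  rcases ternary_flats (M := 6) (t := 5) g12 (by norm_num) (by norm_num) g12_zeros r D hD with h | h
  · rw [h]; decide
  · generalize (Zs g12 D).card = x at h ⊢
    interval_cases x <;> decide

end Pool.Agent.Lib.MP_5cdc53_co
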