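import Pool.Agent.Lib.MP_5cdc53_co.General

set_option autoImplicit false

namespace Pool.Agent.Lib.MP_5cdc53_co

open Finset

section

variable {K : Type} [Field K] [DecidableEq K]

omit [DecidableEq K] in
theorem cramer1 {u1 u2 w1 w2 : K} (x1 x2 : K) (hd : u1 * w2 - u2 * w1 ≠ 0) :
    x1 = ((x1 * w2 - x2 * w1) / (u1 * w2 - u2 * w1)) * u1 +
      ((u1 * x2 - u2 * x1) / (u1 * w2 - u2 * w1)) * w1 := by
  rw [div_mul_eq_mul_div, div_mul_eq_mul_div, ← add_div, eq_div_iff hd]
  ring

omit [DecidableEq K] in
theorem cramer2 {u1 u2 w1 w2 : K} (x1 x2 : K) (hd : u1 * w2 - u2 * w1 ≠ 0) :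
    x2 = ((x1 * w2 - x2 * w1) / (u1 * w2 - u2 * w1)) * u2 +
      ((u1 * x2 - u2 * x1) / (u1 * w2 - u2 * w1)) * w2 := by
  rw [div_mul_eq_mul_div, div_mul_eq_mul_div, ← add_div, eq_div_iff hd]
  ring

/-- homogeneous coordinates on the projective line -/
def hom : Option K → K × K
  | none => (0, 1)
  | some x => (1, x)

/-- the point of the projective line with given homogeneous coordinates -/
def cls (z : K × K) : Option K := if z.1 = 0 then none else some (z.2 / z.1)

/-- the sesquilinear form with matrix `a` -/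
def bil (σ : K →+* K) (a : Fin 4 → K) (z y : K × K) : K :=
  a 0 * (z.1 * σ y.1) + a 1 * (z.2 * σ y.1) + a 2 * (z.1 * σ y.2) + a 3 * (z.2 * σ y.2)

/-- the vectors `(1, x, σ x, x σ x)` and `(0, 0, 0, 1)` -/
def sph (σ : K →+* K) (o : Option K) : Fin 4 → K :=
  ![(hom o).1 * σ (hom o).1, (hom o).2 * σ (hom o).1, (hom o).1 * σ (hom o).2,
    (hom o).2 * σ (hom o).2]

omit [DecidableEq K] in
theorem dot_sph (σ : K →+* K) (a : Fin 4 → K) (o : Option K) :
    a ⬝ᵥ sph σ o = bil σ a (hom o) (hom o) := by
  simp [dotProduct, Fin.sum_univ_four, sph, bil]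

omit [DecidableEq K] in
theorem hom_det {P Q : Option K} (h : P ≠ Q) :
    (hom P).1 * (hom Q).2 - (hom P).2 * (hom Q).1 ≠ 0 := by
  rcases P with _ | x <;> rcases Q with _ | y
  · exact absurd rfl h
  · simp [hom]
  · simp [hom]
  · have : x ≠ y := fun e => h (by rw [e])
    simp only [hom, one_mul, mul_one]
    exact sub_ne_zero.2 this.symm

theorem cls_hom (o : Option K) : cls (hom o) = o := by
  rcases o with _ | x <;> simp [cls, hom]

theorem cls_eq_iff {z y : K × K} (hz : z ≠ 0) (hy : y ≠ 0) :
    cls z = cls y ↔ z.1 * y.2 - z.2 * y.1 = 0 := by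
  obtain ⟨z1, z2⟩ := z
  obtain ⟨y1, y2⟩ := y
  unfold cls
  by_cases h1 : z1 = 0 <;> by_cases h2 : y1 = 0
  · subst h1; subst h2; simp
  · subst h1
    have : z2 ≠ 0 := fun h => hz (by simp [h])
    simp [h2, this]
  · subst h2
    have : y2 ≠ 0 := fun h => hy (by simp [h])
    simp [h1, this]
  · simp only [h1, h2, if_false, Option.some.injEq]
    rw [div_eq_div_iff h1 h2]
    constructor
    · intro h; linear_combination -h
    · intro h; linear_combination -h

theorem exists_smul_hom {z : K × K} (hz : z ≠ 0) :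
    ∃ c : K, c ≠ 0 ∧ z.1 = c * (hom (cls z)).1 ∧ z.2 = c * (hom (cls z)).2 := by
  obtain ⟨z1, z2⟩ := z
  by_cases h1 : z1 = 0
  · subst h1
    have : z2 ≠ 0 := fun h => hz (by simp [h])
    exact ⟨z2, this, by simp [cls, hom]⟩
  · exact ⟨z1, h1, by simp [cls, hom, h1, mul_div_cancel₀]⟩

theorem bil_cls_zero (σ : K →+* K) (a : Fin 4 → K) {z : K × K} (hz : z ≠ 0)
    (h : bil σ a z z = 0) : bil σ a (hom (cls z)) (hom (cls z)) = 0 := by
  obtain ⟨c, hc, h1, h2⟩ := exists_smul_hom hz
  have hσ : σ c ≠ 0 := (map_ne_zero σ).2 hc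
  unfold bil at h ⊢
  rw [h1, h2] at h
  simp only [map_mul] at h
  refine (mul_eq_zero.1 (?_ : (c * σ c) * _ = 0)).resolve_left (mul_ne_zero hc hσ)
  linear_combination h

theorem bil_zero_cls (σ : K →+* K) (a : Fin 4 → K) {z : K × K} (hz : z ≠ 0)
    (h : bil σ a (hom (cls z)) (hom (cls z)) = 0) : bil σ a z z = 0 := by
  obtain ⟨c, hc, h1, h2⟩ := exists_smul_hom hz
  unfold bil at h ⊢
  rw [h1, h2]
  simp only [map_mul]
  linear_combination (c * σ c) * h

/-- zero sets in the spherical geometry: three zeros force exactly `M + 1` zeros -/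
theorem sph_zeros [Fintype K] (σ : K →+* K) {M : ℕ}
    (hM : (univ.filter fun x : K => σ x = x).card = M)
    {r : ℕ} (D : Fin r → Fin 4 → K) (hD : D ≠ 0) (P Q R : Option K)
    (hPQ : P ≠ Q) (hPR : P ≠ R) (hQR : Q ≠ R)
    (hP : ∀ ρ, bil σ (D ρ) (hom P) (hom P) = 0) (hQ : ∀ ρ, bil σ (D ρ) (hom Q) (hom Q) = 0)
    (hR : ∀ ρ, bil σ (D ρ) (hom R) (hom R) = 0) :
    (univ.filter fun o : Option K => ∀ ρ, bil σ (D ρ) (hom o) (hom o) = 0).card = M + 1 := by
  classical
  -- coordinates
  obtain ⟨u1, u2, w1, w2, hd, huu, hww, huw⟩ : ∃ u1 u2 w1 w2 : K, u1 * w2 - u2 * w1 ≠ 0 ∧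
      (∀ ρ, bil σ (D ρ) (u1, u2) (u1, u2) = 0) ∧ (∀ ρ, bil σ (D ρ) (w1, w2) (w1, w2) = 0) ∧
      (∀ ρ, bil σ (D ρ) (u1 + w1, u2 + w2) (u1 + w1, u2 + w2) = 0) := by
    have d1 := hom_det hPQ
    have d2 := hom_det hPR
    have d3 := hom_det hQR
    set p1 := (hom P).1
    set p2 := (hom P).2
    set q1 := (hom Q).1
    set q2 := (hom Q).2
    set r1 := (hom R).1
    set r2 := (hom R).2
    have e1 := cramer1 r1 r2 d1
    have e2 := cramer2 r1 r2 d1
    have hα : ((r1 * q2 - r2 * q1) / (p1 * q2 - p2 * q1)) ≠ 0 := by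
      refine div_ne_zero (fun h => d3 ?_) d1
      linear_combination -h
    have hβ : ((p1 * r2 - p2 * r1) / (p1 * q2 - p2 * q1)) ≠ 0 := div_ne_zero d2 d1
    set α := ((r1 * q2 - r2 * q1) / (p1 * q2 - p2 * q1))
    set β := ((p1 * r2 - p2 * r1) / (p1 * q2 - p2 * q1))
    refine ⟨α * p1, α * p2, β * q1, β * q2, ?_, ?_, ?_, ?_⟩
    · have : α * p1 * (β * q2) - α * p2 * (β * q1) = (α * β) * (p1 * q2 - p2 * q1) := by ring
      rw [this]
      exact mul_ne_zero (mul_ne_zero hα hβ) d1
    · intro ρ
      have h : D ρ 0 * (p1 * σ p1) + D ρ 1 * (p2 * σ p1) + D ρ 2 * (p1 * σ p2) +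
        D ρ 3 * (p2 * σ p2) = 0 := hP ρ
      simp only [bil, map_mul]
      linear_combination (α * σ α) * h
    · intro ρ
      have h : D ρ 0 * (q1 * σ q1) + D ρ 1 * (q2 * σ q1) + D ρ 2 * (q1 * σ q2) +
        D ρ 3 * (q2 * σ q2) = 0 := hQ ρ
      simp only [bil, map_mul]
      linear_combination (β * σ β) * h
    · intro ρ
      rw [← e1, ← e2]
      exact hR ρ
  -- expansion in the basis
  have hexp : ∀ ρ (s t s' t' : K), bil σ (D ρ) (s * u1 + t * w1, s * u2 + t * w2)
      (s' * u1 + t' * w1, s' * u2 + t' * w2) =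
      (s * σ t' - t * σ s') * bil σ (D ρ) (u1, u2) (w1, w2) := by
    intro ρ s t s' t'
    have h1 := huu ρ
    have h2 := hww ρ
    have h3 := huw ρ
    simp only [bil, map_add, map_mul] at h1 h2 h3 ⊢
    linear_combination (s * σ s' - t * σ s') * h1 + (t * σ t' - t * σ s') * h2 + (t * σ s') * h3
  obtain ⟨ρ0, hρ0⟩ : ∃ ρ, bil σ (D ρ) (u1, u2) (w1, w2) ≠ 0 := by
    by_contra hcon
    push Not at hcon
    apply hD
    funext ρ
    have hz : ∀ z y : K × K, bil σ (D ρ) z y = 0 := by
      intro z y
      have c1 : ∀ x : K × K, x = (((x.1 * w2 - x.2 * w1) / (u1 * w2 - u2 * w1)) * u1 +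
          ((u1 * x.2 - u2 * x.1) / (u1 * w2 - u2 * w1)) * w1,
          ((x.1 * w2 - x.2 * w1) / (u1 * w2 - u2 * w1)) * u2 +
          ((u1 * x.2 - u2 * x.1) / (u1 * w2 - u2 * w1)) * w2) := by
        intro x
        exact Prod.ext (cramer1 x.1 x.2 hd) (cramer2 x.1 x.2 hd)
      rw [c1 z, c1 y, hexp, hcon, mul_zero]
    funext t
    have h0 := hz (1, 0) (1, 0)
    have h1 := hz (0, 1) (1, 0)
    have h2 := hz (1, 0) (0, 1)
    have h3 := hz (0, 1) (0, 1)
    simp [bil] at h0 h1 h2 h3
    fin_cases t
    · exact h0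
    · exact h1
    · exact h2
    · exact h3
  -- the zero set
  have hu : ((u1, u2) : K × K) ≠ 0 := by
    intro h
    have h1 : u1 = 0 := congrArg Prod.fst h
    have h2 : u2 = 0 := congrArg Prod.snd h
    apply hd; rw [h1, h2]; ring
  have hcw : ∀ c : K, ((c * u1 + w1, c * u2 + w2) : K × K) ≠ 0 := by
    intro c h
    have h1 : c * u1 + w1 = 0 := congrArg Prod.fst h
    have h2 : c * u2 + w2 = 0 := congrArg Prod.snd h
    apply hd; linear_combination u1 * h2 - u2 * h1
  have hset : (univ.filter fun o : Option K => ∀ ρ, bil σ (D ρ) (hom o) (hom o) = 0) =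
      insert (cls (u1, u2)) ((univ.filter fun x : K => σ x = x).image
        fun c => cls (c * u1 + w1, c * u2 + w2)) := by
    ext o
    simp only [mem_filter, mem_univ, true_and, mem_insert, mem_image]
    constructor
    · intro h
      have h0 := h ρ0
      set z := hom o with hzdef
      have hz0 : z ≠ 0 := by
        rw [hzdef]
        rcases o with _ | x <;> simp [hom]
      set s := (z.1 * w2 - z.2 * w1) / (u1 * w2 - u2 * w1) with hs
      set t := (u1 * z.2 - u2 * z.1) / (u1 * w2 - u2 * w1) with ht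
      have c1 : z.1 = s * u1 + t * w1 := cramer1 z.1 z.2 hd
      have c2 : z.2 = s * u2 + t * w2 := cramer2 z.1 z.2 hd
      have hst : s * σ t = t * σ s := by
        have e : bil σ (D ρ0) z z = (s * σ t - t * σ s) * bil σ (D ρ0) (u1, u2) (w1, w2) := by
          rw [← hexp, ← c1, ← c2]
        rw [e] at h0
        exact sub_eq_zero.1 ((mul_eq_zero.1 h0).resolve_right hρ0)
      have ho : o = cls z := by rw [hzdef, cls_hom]
      by_cases ht0 : t = 0
      · left
        rw [ho, cls_eq_iff hz0 hu, c1, c2, ht0]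
        ring
      · right
        refine ⟨s / t, ?_, ?_⟩
        · rw [map_div₀, div_eq_div_iff ((map_ne_zero σ).2 ht0) ht0]
          linear_combination -hst
        · rw [ho, cls_eq_iff (hcw _) hz0, c1, c2]
          field_simp
          ring
    · rintro (h | ⟨c, hc, h⟩)
      · intro ρ
        rw [h]
        exact bil_cls_zero σ _ hu (huu ρ)
      · intro ρ
        rw [← h]
        apply bil_cls_zero σ _ (hcw c)
        have := hexp ρ c 1 c 1
        simp only [one_mul, map_one, mul_one] at this
        rw [this, hc, sub_self, zero_mul]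
  rw [hset, Finset.card_insert_of_notMem, Finset.card_image_of_injective, hM]
  · intro c c' h
    have h' := (cls_eq_iff (hcw c) (hcw c')).1 h
    have e : (c - c') * (u1 * w2 - u2 * w1) = 0 := by
      linear_combination h'
    exact sub_eq_zero.1 ((mul_eq_zero.1 e).resolve_right hd)
  · simp only [mem_image, mem_filter, mem_univ, true_and, not_exists, not_and]
    intro c _ h
    have h' := (cls_eq_iff (hcw c) hu).1 h
    apply hd
    linear_combination -h'

theorem full_spherical [Fintype K] (σ : K →+* K) (M k : ℕ) (hM1 : 2 ≤ M)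
    (hM : (univ.filter fun x : K => σ x = x).card = M) (hlt : M < Fintype.card K)
    (hk : k = Fintype.card K + 1) :
    FullGrowth k {0, 1, 2, M + 1} := by
  classical
  have e : Fin k ≃ Option K := by
    apply Fintype.equivOfCardEq
    rw [Fintype.card_fin, Fintype.card_option, hk]
  have hk0 : 0 < k := by omega
  have hcard : ({0, 1, 2, M + 1} : Finset ℕ).card = 4 := by
    rw [Finset.card_insert_of_notMem, Finset.card_insert_of_notMem,
      Finset.card_insert_of_notMem, Finset.card_singleton]
    · simp; omega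
    · simp; omega
    · simp
  refine fullGrowth_of_vectors hk0 (fun i => sph σ (e i)) _ ?_ hcard ?_
  · simp only [mem_insert, mem_singleton]
    omega
  intro r D hD
  have hZ : (Zs (fun i => sph σ (e i)) D).card =
      (univ.filter fun o : Option K => ∀ ρ, bil σ (D ρ) (hom o) (hom o) = 0).card := by
    apply Finset.card_bij (fun i _ => e i)
    · intro i hi
      simp only [Zs, mem_filter, mem_univ, true_and, dot_sph] at hi ⊢
      exact hi
    · intro i _ j _ h
      exact e.injective h
    · intro o ho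
      refine ⟨e.symm o, ?_, e.apply_symm_apply o⟩
      simp only [Zs, mem_filter, mem_univ, true_and, dot_sph, e.apply_symm_apply] at ho ⊢
      exact ho
  rw [hZ]
  by_cases hle : (univ.filter fun o : Option K =>
      ∀ ρ, bil σ (D ρ) (hom o) (hom o) = 0).card ≤ 2
  · generalize (univ.filter fun o : Option K =>
      ∀ ρ, bil σ (D ρ) (hom o) (hom o) = 0).card = x at hle ⊢
    simp only [mem_insert, mem_singleton]
    omega
  · push Not at hle
    obtain ⟨P, Q, R, hP, hQ, hR, h1, h2, h3⟩ := Finset.two_lt_card_iff.1 hle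
    simp only [mem_filter, mem_univ, true_and] at hP hQ hR
    rw [sph_zeros σ hM D hD P Q R h1 h2 h3 hP hQ hR]
    simp

end

/-- Spherical geometries: `k = q ^ n + 1`, `L = {0, 1, 2, q + 1}` for a prime power `q`. -/
theorem full_sphere (q n : ℕ) (hq : IsPrimePow q) (hn : 2 ≤ n) :
    FullGrowth (q ^ n + 1) {0, 1, 2, q + 1} := by
  classical
  obtain ⟨p, e, hp, he, rfl⟩ := (isPrimePow_nat_iff _).1 hq
  have : Fact p.Prime := ⟨hp⟩
  have : NeZero n := ⟨by omega⟩
  have : Fintype (GaloisField p e) := Fintype.ofFinite _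
  have : Fintype (FiniteField.Extension (GaloisField p e) p n) := Fintype.ofFinite _
  have hF : Nat.card (GaloisField p e) = p ^ e := GaloisField.card p e (by omega)
  have hK : Fintype.card (FiniteField.Extension (GaloisField p e) p n) = (p ^ e) ^ n := by
    rw [Fintype.card_eq_nat_card, FiniteField.natCard_extension, hF]
  have hq2 : 2 ≤ p ^ e := hq.two_le
  set σ : FiniteField.Extension (GaloisField p e) p n →+*
      FiniteField.Extension (GaloisField p e) p n :=
    ((FiniteField.Extension.frob (GaloisField p e) p n).toAlgHom).toRingHom with hσ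
  have hσa : ∀ x, σ x = x ^ (p ^ e) := by
    intro x
    rw [← hF]
    exact FiniteField.Extension.frob_apply (GaloisField p e) p n
  refine full_spherical σ (p ^ e) _ hq2 ?_ ?_ (by rw [hK])
  · -- fixed points of the Frobenius map
    apply le_antisymm
    · have hne : (Polynomial.X ^ (p ^ e) - Polynomial.X :
          Polynomial (FiniteField.Extension (GaloisField p e) p n)) ≠ 0 :=
        FiniteField.X_pow_card_sub_X_ne_zero _ (by omega)
      have hdeg : (Polynomial.X ^ (p ^ e) - Polynomial.X :
          Polynomial (FiniteField.Extension (GaloisField p e) p n)).natDegree = p ^ e :=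
        FiniteField.X_pow_card_sub_X_natDegree_eq _ (by omega)
      calc (univ.filter fun x => σ x = x).card
          ≤ (Polynomial.X ^ (p ^ e) - Polynomial.X :
            Polynomial (FiniteField.Extension (GaloisField p e) p n)).roots.toFinset.card := by
            apply Finset.card_le_card
            intro x hx
            simp only [mem_filter, mem_univ, true_and] at hx
            rw [Multiset.mem_toFinset, Polynomial.mem_roots hne]
            simp [Polynomial.IsRoot, ← hσa, hx]
        _ ≤ _ := (Multiset.toFinset_card_le _)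
        _ ≤ _ := Polynomial.card_roots' _
        _ = p ^ e := hdeg
    · calc p ^ e = Fintype.card (GaloisField p e) := by rw [Fintype.card_eq_nat_card, hF]
        _ = (univ.image (algebraMap (GaloisField p e)
            (FiniteField.Extension (GaloisField p e) p n))).card := by
            rw [← Finset.card_univ]
            exact (Finset.card_image_of_injective _
              (algebraMap (GaloisField p e)
                (FiniteField.Extension (GaloisField p e) p n)).injective).symm
        _ ≤ _ := by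
            apply Finset.card_le_card
            intro x hx
            simp only [mem_image, mem_univ, true_and] at hx
            obtain ⟨a, rfl⟩ := hx
            simp only [mem_filter, mem_univ, true_and]
            rw [hσ]
            exact (FiniteField.Extension.frob (GaloisField p e) p n).commutes a
  · rw [hK]
    calc p ^ e = (p ^ e) ^ 1 := (pow_one _).symm
      _ < (p ^ e) ^ n := Nat.pow_lt_pow_right (by omega) (by omega)

end Pool.Agent.Lib.MP_5cdc53_co
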