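import Pool.Agent.Lib.MP_5cdc53_co.General

set_option autoImplicit false

namespace Pool.Agent.Lib.MP_5cdc53_co

open Finset

/-- zeros of one functional -/
def Z1 {k s : ℕ} (v : Fin k → Fin s → ZMod 3) (a : Fin s → ZMod 3) : Finset (Fin k) :=
  univ.filter fun i => a ⬝ᵥ v i = 0

theorem four_forms : ∀ x y : ZMod 3, 1 + 3 * (if x = 0 ∧ y = 0 then 1 else 0) ≤
    (if x + y = 0 then 1 else 0) + (if x - y = 0 then 1 else 0) + (if x = 0 then 1 else 0) +
      (if y = 0 then 1 else 0) := by decide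

theorem zeros_count {k s : ℕ} (v : Fin k → Fin s → ZMod 3) (a b : Fin s → ZMod 3) :
    k + 3 * (Z1 v a ∩ Z1 v b).card ≤
      (Z1 v (a + b)).card + (Z1 v (a - b)).card + (Z1 v a).card + (Z1 v b).card := by
  have e0 : (Z1 v a ∩ Z1 v b).card = ∑ i, if a ⬝ᵥ v i = 0 ∧ b ⬝ᵥ v i = 0 then 1 else 0 := by
    rw [← Finset.card_filter]
    congr 1
    ext i
    simp [Z1]
  have e1 : ∀ c, (Z1 v c).card = ∑ i, if c ⬝ᵥ v i = 0 then 1 else 0 := by
    intro c; rw [← Finset.card_filter]; rfl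
  rw [e0, e1, e1, e1, e1, Finset.mul_sum, ← Finset.sum_add_distrib, ← Finset.sum_add_distrib,
    ← Finset.sum_add_distrib]
  calc k + ∑ i, 3 * (if a ⬝ᵥ v i = 0 ∧ b ⬝ᵥ v i = 0 then 1 else 0)
      = ∑ i, (1 + 3 * (if a ⬝ᵥ v i = 0 ∧ b ⬝ᵥ v i = 0 then 1 else 0)) := by
        rw [Finset.sum_add_distrib]; simp
    _ ≤ _ := by
        refine Finset.sum_le_sum fun i _ => ?_
        rw [add_dotProduct, sub_dotProduct]
        exact four_forms _ _

theorem ternary_flats {k s M t : ℕ} (v : Fin k → Fin s → ZMod 3) (hM : 4 * M < k + 3 * t)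
    (htM : t ≤ M) (h1 : ∀ a : Fin s → ZMod 3, a ≠ 0 → (Z1 v a).card = M ∨ (Z1 v a).card < t)
    (r : ℕ) (D : Fin r → Fin s → ZMod 3) (hD : D ≠ 0) :
    (Zs v D).card = M ∨ (Zs v D).card < t := by
  by_contra hcon
  push Not at hcon
  obtain ⟨hne, hge⟩ := hcon
  obtain ⟨ρ, hρ⟩ := Function.ne_iff.1 hD
  have hle : ∀ a : Fin s → ZMod 3, a ≠ 0 → (Z1 v a).card ≤ M := by
    intro a ha
    rcases h1 a ha with h | h <;> omega
  have hsub : ∀ σ, Zs v D ⊆ Z1 v (D σ) := by
    intro σ i hi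
    simp only [Zs, Z1, mem_filter, mem_univ, true_and] at hi ⊢
    exact hi σ
  have hall : Z1 v (D ρ) ⊆ Zs v D := by
    intro i hi
    simp only [Zs, mem_filter, mem_univ, true_and]
    intro σ
    by_cases hσ : D σ = 0
    · rw [hσ, zero_dotProduct]
    · have hint : t ≤ (Z1 v (D ρ) ∩ Z1 v (D σ)).card :=
        hge.trans (Finset.card_le_card (Finset.subset_inter (hsub ρ) (hsub σ)))
      have hc := zeros_count v (D ρ) (D σ)
      have hz1 := hle _ hρ
      have hz2 := hle _ hσ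
      have hi' : D ρ ⬝ᵥ v i = 0 := by simpa [Z1] using hi
      by_cases hp : D ρ + D σ = 0
      · have : D σ = - D ρ := by
          rw [← add_eq_zero_iff_neg_eq.1 hp]
        rw [this, neg_dotProduct, hi', neg_zero]
      · by_cases hm : D ρ - D σ = 0
        · rw [← sub_eq_zero.1 hm, hi']
        · have := hle _ hp
          have := hle _ hm
          omega
  have heq : (Zs v D).card = (Z1 v (D ρ)).card :=
    le_antisymm (Finset.card_le_card (hsub ρ)) (Finset.card_le_card hall)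
  rcases h1 _ hρ with h | h <;> omega

end Pool.Agent.Lib.MP_5cdc53_co
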